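import Mathlib

/-!
# Factors of integer polynomials of total degree at most two in two variables
-/

set_option autoImplicit false

namespace Pool.Agent.H267.QZ

open Polynomial

/-- `P` has total degree at most `2` -/
def Tot2 (P : ℤ[X][X]) : Prop := ∀ i j, 2 < i + j → (P.coeff j).coeff i = 0

/-- the linear polynomial `a + b X + d Y` -/
noncomputable def lin (a b d : ℤ) : ℤ[X][X] := C (C a + C b * X) + C (C d) * X

lemma Tot2.nat {P : ℤ[X][X]} (h : Tot2 P) : P.natDegree ≤ 2 := by
  rw [natDegree_le_iff_coeff_eq_zero]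
  intro j hj
  ext i
  rw [h i j (by omega), coeff_zero]

lemma Tot2.coeff {P : ℤ[X][X]} (h : Tot2 P) (j : ℕ) (hj : j ≤ 2) : (P.coeff j).natDegree ≤ 2 - j := by
  rw [natDegree_le_iff_coeff_eq_zero]
  intro i hi
  exact h i j (by omega)

lemma eq_lin (F : ℤ[X][X]) (h : F.natDegree ≤ 1) (h0 : (F.coeff 0).natDegree ≤ 1)
    (h1 : (F.coeff 1).natDegree = 0) : ∃ a b d : ℤ, F = lin a b d := by
  obtain ⟨d, hd⟩ := natDegree_eq_zero.1 h1
  refine ⟨(F.coeff 0).coeff 0, (F.coeff 0).coeff 1, d, ?_⟩
  have e1 := eq_X_add_C_of_natDegree_le_one h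
  have e2 := eq_X_add_C_of_natDegree_le_one h0
  rw [lin, ← add_comm (C ((F.coeff 0).coeff 1) * X), ← e2, hd, add_comm]
  exact e1

lemma eq_C_of_zero {a : ℤ[X]} (h : a.natDegree = 0) : ∃ α : ℤ, a = C α := by
  obtain ⟨d, hd⟩ := natDegree_eq_zero.1 h
  exact ⟨d, hd.symm⟩

/-- the dichotomy -/
lemma dich (F P : ℤ[X][X]) (hF : 0 < F.natDegree) (hdvd : F ∣ P) (hP : P ≠ 0) (h2 : Tot2 P) :
    (∃ a : ℤ, a ≠ 0 ∧ P = C (C a) * F) ∨
      ∃ a b d a' b' d' : ℤ, P = lin a b d * lin a' b' d' := by
  obtain ⟨A, rfl⟩ := hdvd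
  have hF0 : F ≠ 0 := by rintro rfl; simp at hP
  have hA0 : A ≠ 0 := by rintro rfl; simp at hP
  have hdeg : F.natDegree + A.natDegree ≤ 2 := by
    rw [← natDegree_mul hF0 hA0]
    exact h2.nat
  have hlead : ∀ n m, F.natDegree = n → A.natDegree = m → (F * A).coeff (n + m) = F.coeff n * A.coeff m := by
    intro n m hn hm
    have := coeff_mul_degree_add_degree F A
    rw [hn, hm] at this
    rw [this, leadingCoeff, leadingCoeff, hn, hm]
  have hFl : F.coeff F.natDegree ≠ 0 := by
    rw [coeff_natDegree]; exact leadingCoeff_ne_zero.2 hF0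
  have hAl : A.coeff A.natDegree ≠ 0 := by
    rw [coeff_natDegree]; exact leadingCoeff_ne_zero.2 hA0
  have hconst : ∀ α : ℤ, A = C (C α) → ∃ a : ℤ, a ≠ 0 ∧ F * A = C (C a) * F := by
    intro α hα
    refine ⟨α, ?_, by rw [hα, mul_comm]⟩
    rintro rfl
    apply hA0
    rw [hα, C_0, C_0]
  rcases Nat.lt_or_ge 1 F.natDegree with h3 | h3
  · -- degree two
    left
    have hn : F.natDegree = 2 := by omega
    have hm : A.natDegree = 0 := by omega
    have h4 := hlead 2 0 hn hm
    rw [hn] at hFl
    rw [hm] at hAl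
    have h5 := h2.coeff 2 le_rfl
    rw [show (2 : ℕ) = 2 + 0 from rfl, h4, natDegree_mul hFl hAl] at h5
    obtain ⟨α, hα⟩ := eq_C_of_zero (a := A.coeff 0) (by omega)
    refine hconst α ?_
    rw [← hα]
    exact eq_C_of_natDegree_eq_zero hm
  · have hn : F.natDegree = 1 := by omega
    rw [hn] at hFl
    rcases Nat.eq_zero_or_pos A.natDegree with hm | hm
    · rw [hm] at hAl
      have h4 := hlead 1 0 hn hm
      have h5 := h2.coeff 1 (by norm_num)
      rw [show (1 : ℕ) = 1 + 0 from rfl, h4, natDegree_mul hFl hAl] at h5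
      have hAeq := eq_C_of_natDegree_eq_zero hm
      rcases Nat.eq_zero_or_pos (A.coeff 0).natDegree with ha | ha
      · left
        obtain ⟨α, hα⟩ := eq_C_of_zero ha
        refine hconst α ?_
        rw [← hα]
        exact hAeq
      · right
        have hf1 : (F.coeff 1).natDegree = 0 := by omega
        have h6 := h2.coeff 0 (by norm_num)
        have h7 : (F * A).coeff 0 = F.coeff 0 * A.coeff 0 := mul_coeff_zero _ _
        have hf0 : (F.coeff 0).natDegree ≤ 1 := by
          by_cases h8 : F.coeff 0 = 0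
          · rw [h8]; simp
          · rw [h7, natDegree_mul h8 hAl] at h6
            omega
        obtain ⟨a, b, d, e⟩ := eq_lin F (by omega) hf0 hf1
        obtain ⟨a', b', d', e'⟩ := eq_lin A (by omega) (by omega) (by
          rw [coeff_eq_zero_of_natDegree_lt (by omega), natDegree_zero])
        exact ⟨a, b, d, a', b', d', by rw [e, e']⟩
    · right
      have hm1 : A.natDegree = 1 := by omega
      rw [hm1] at hAl
      have h4 := hlead 1 1 hn hm1
      have h5 := h2.coeff 2 le_rfl
      rw [show (2 : ℕ) = 1 + 1 from rfl, h4, natDegree_mul hFl hAl] at h5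
      have hf1 : (F.coeff 1).natDegree = 0 := by omega
      have ha1 : (A.coeff 1).natDegree = 0 := by omega
      obtain ⟨γ, hγ⟩ := eq_C_of_zero hf1
      obtain ⟨γ', hγ'⟩ := eq_C_of_zero ha1
      have hγ0 : γ ≠ 0 := by rintro rfl; apply hFl; rw [hγ, C_0]
      have hγ'0 : γ' ≠ 0 := by rintro rfl; apply hAl; rw [hγ', C_0]
      have h6 := h2.coeff 0 (by norm_num)
      have h7 : (F * A).coeff 0 = F.coeff 0 * A.coeff 0 := mul_coeff_zero _ _
      have h8 := h2.coeff 1 (by norm_num)
      have h9 : (F * A).coeff 1 = C γ' * F.coeff 0 + C γ * A.coeff 0 := by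
        rw [coeff_mul, Finset.Nat.antidiagonal_succ]
        simp [hγ, hγ']
        ring
      have hboth : (F.coeff 0).natDegree ≤ 1 ∧ (A.coeff 0).natDegree ≤ 1 := by
        by_cases g1 : F.coeff 0 = 0
        · refine ⟨by rw [g1]; simp, ?_⟩
          rw [h9, g1, mul_zero, zero_add, natDegree_C_mul hγ0] at h8
          exact h8
        · by_cases g2 : A.coeff 0 = 0
          · refine ⟨?_, by rw [g2]; simp⟩
            rw [h9, g2, mul_zero, add_zero, natDegree_C_mul hγ'0] at h8
            exact h8
          · rw [h7, natDegree_mul g1 g2] at h6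
            by_contra hcon
            rcases Nat.lt_or_ge 1 (F.coeff 0).natDegree with g3 | g3
            · have g4 : (C γ * A.coeff 0).natDegree < (C γ' * F.coeff 0).natDegree := by
                rw [natDegree_C_mul hγ'0, natDegree_C_mul hγ0]
                omega
              rw [h9, natDegree_add_eq_left_of_natDegree_lt g4, natDegree_C_mul hγ'0] at h8
              omega
            · have g5 : 1 < (A.coeff 0).natDegree := by
                by_contra g6
                exact hcon ⟨g3, by omega⟩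
              have g4 : (C γ' * F.coeff 0).natDegree < (C γ * A.coeff 0).natDegree := by
                rw [natDegree_C_mul hγ'0, natDegree_C_mul hγ0]
                omega
              rw [h9, natDegree_add_eq_right_of_natDegree_lt g4, natDegree_C_mul hγ0] at h8
              omega
      obtain ⟨a, b, d, e⟩ := eq_lin F (by omega) hboth.1 hf1
      obtain ⟨a', b', d', e'⟩ := eq_lin A (by omega) hboth.2 ha1
      exact ⟨a, b, d, a', b', d', by rw [e, e']⟩

/-- the polynomial `v 0 + v 1 X + v 2 Y + v 3 X² + v 4 X Y + v 5 Y²` -/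
noncomputable def quad (v : Fin 6 → ℤ) : ℤ[X][X] :=
  C (C (v 0) + C (v 1) * X + C (v 3) * X ^ 2) + C (C (v 2) + C (v 4) * X) * X + C (C (v 5)) * X ^ 2

lemma quad_coeff (v : Fin 6 → ℤ) (i j : ℕ) : ((quad v).coeff j).coeff i =
    if j = 0 then (if i = 0 then v 0 else if i = 1 then v 1 else if i = 2 then v 3 else 0)
    else if j = 1 then (if i = 0 then v 2 else if i = 1 then v 4 else 0)
    else if j = 2 then (if i = 0 then v 5 else 0) else 0 := by
  have e : (quad v).coeff j = if j = 0 then C (v 0) + C (v 1) * X + C (v 3) * X ^ 2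
      else if j = 1 then C (v 2) + C (v 4) * X else if j = 2 then C (v 5) else 0 := by
    unfold quad
    rw [coeff_add, coeff_add, coeff_C, coeff_C_mul_X, coeff_C_mul_X_pow]
    rcases j with _ | _ | _ | j
    · simp
    · simp
    · simp
    · simp
  rw [e]
  rcases j with _ | _ | _ | j
  · rw [if_pos rfl, if_pos rfl, coeff_add, coeff_add, coeff_C, coeff_C_mul_X, coeff_C_mul_X_pow]
    rcases i with _ | _ | _ | i
    · simp
    · simp
    · simp
    · simp
  · rw [if_neg (by omega), if_pos rfl, if_neg (by omega), if_pos rfl, coeff_add, coeff_C, coeff_C_mul_X]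
    rcases i with _ | _ | i
    · simp
    · simp
    · simp
  · rw [if_neg (by omega), if_neg (by omega), if_pos rfl, if_neg (by omega), if_neg (by omega), if_pos rfl,
      coeff_C]
  · rw [if_neg (by omega), if_neg (by omega), if_neg (by omega), if_neg (by omega), if_neg (by omega),
      if_neg (by omega), coeff_zero]

lemma quad_tot (v : Fin 6 → ℤ) : Tot2 (quad v) := by
  intro i j h
  rw [quad_coeff]
  split_ifs <;> first | rfl | omega

lemma quad_ne (v : Fin 6 → ℤ) (hv : v ≠ 0) : quad v ≠ 0 := by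
  intro h
  apply hv
  have key : ∀ i j, ((quad v).coeff j).coeff i = 0 := by
    intro i j
    rw [h, coeff_zero, coeff_zero]
  have h0 := key 0 0
  have h1 := key 1 0
  have h2 := key 0 1
  have h3 := key 2 0
  have h4 := key 1 1
  have h5 := key 0 2
  rw [quad_coeff] at h0 h1 h2 h3 h4 h5
  norm_num at h0 h1 h2 h3 h4 h5
  funext k
  fin_cases k <;> simp [h0, h1, h2, h3, h4, h5]

lemma quad_height (v : Fin 6 → ℤ) (H : ℝ) (hH : 0 ≤ H) (h : ∀ k, |(v k : ℝ)| ≤ H) (i j : ℕ) :
    |(((quad v).coeff j).coeff i : ℝ)| ≤ H := by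
  rw [quad_coeff]
  split_ifs <;> first | exact h _ | simpa using hH

lemma quad_smul (a : ℤ) (v w : Fin 6 → ℤ) (b : ℤ) (h : C (C a) * quad v = C (C b) * quad w) :
    a • v = b • w := by
  have key : ∀ i j, a * ((quad v).coeff j).coeff i = b * ((quad w).coeff j).coeff i := by
    intro i j
    have h1 := congrArg (fun p : ℤ[X][X] => (p.coeff j).coeff i) h
    simpa only [coeff_C_mul] using h1
  have h0 := key 0 0
  have h1 := key 1 0
  have h2 := key 0 1
  have h3 := key 2 0
  have h4 := key 1 1
  have h5 := key 0 2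
  simp only [quad_coeff] at h0 h1 h2 h3 h4 h5
  norm_num at h0 h1 h2 h3 h4 h5
  funext k
  fin_cases k <;> simp [h0, h1, h2, h3, h4, h5]

lemma abs_le_of_mul {a b : ℤ} {H : ℝ} (hb : b ≠ 0) (h : |((a * b : ℤ) : ℝ)| ≤ H) : |(a : ℝ)| ≤ H := by
  have h1 : (1 : ℝ) ≤ |(b : ℝ)| := by exact_mod_cast Int.one_le_abs hb
  push_cast at h
  rw [abs_mul] at h
  nlinarith [abs_nonneg (a : ℝ)]

/-- the sizes of the factors -/
lemma sizes (a b d a' b' d' : ℤ) (H : ℝ) (hne : lin a b d * lin a' b' d' ≠ 0)
    (h : ∀ i j, |(((lin a b d * lin a' b' d').coeff j).coeff i : ℝ)| ≤ H) :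
    |(b : ℝ)| ≤ H ∧ |(d : ℝ)| ≤ H := by
  have e : lin a b d * lin a' b' d' =
      quad ![a * a', a * b' + b * a', a * d' + d * a', b * b', b * d' + d * b', d * d'] := by
    unfold lin quad
    simp only [Matrix.cons_val_zero, Matrix.cons_val_one, Matrix.cons_val, C_add, C_mul, C_pow]
    ring
  rw [e] at h
  have h1 := h 1 0
  have h2 := h 0 1
  have h3 := h 2 0
  have h4 := h 1 1
  have h5 := h 0 2
  rw [quad_coeff] at h1 h2 h3 h4 h5
  norm_num [Matrix.cons_val_zero, Matrix.cons_val_one, Matrix.cons_val] at h1 h2 h3 h4 h5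
  have hne' : lin a' b' d' ≠ 0 := right_ne_zero_of_mul hne
  by_cases gb : b' = 0
  · by_cases gd : d' = 0
    · have ga : a' ≠ 0 := by
        rintro rfl
        apply hne'
        rw [gb, gd, lin]
        simp
      subst gb gd
      constructor
      · exact abs_le_of_mul ga (by push_cast; simpa using h1)
      · exact abs_le_of_mul ga (by push_cast; simpa using h2)
    · subst gb
      constructor
      · exact abs_le_of_mul gd (by push_cast; simpa using h4)
      · exact abs_le_of_mul gd (by push_cast; simpa using h5)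
  · constructor
    · exact abs_le_of_mul gb (by push_cast; simpa using h3)
    · by_cases gd : d' = 0
      · subst gd
        exact abs_le_of_mul gb (by push_cast; simpa using h4)
      · exact abs_le_of_mul gd (by push_cast; simpa using h5)

end Pool.Agent.H267.QZ
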