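import Pool.Agent.H267.QZ.Main

/-!
# No linear common factor: heights of cofactors of linear polynomials
-/

set_option autoImplicit false

namespace Pool.Agent.H267.QZ

open Polynomial

lemma swap_coeff (P : ℤ[X][X]) (i j : ℕ) : ((Bivariate.swap P).coeff i).coeff j = (P.coeff j).coeff i := by
  induction P using Polynomial.induction_on' with
  | add p q hp hq => rw [map_add, coeff_add, coeff_add, coeff_add, coeff_add, hp, hq]
  | monomial n f =>
    rw [Bivariate.swap_monomial, coeff_mul_C, coeff_map, coeff_C_mul_X_pow, coeff_monomial]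
    by_cases h : n = j
    · subst h; simp
    · rw [if_neg h, if_neg (fun h' => h h'.symm), coeff_zero]

/-- degree at most `D` in each variable -/
def Bd (D : ℕ) (P : ℤ[X][X]) : Prop := P.natDegree ≤ D ∧ ∀ j, (P.coeff j).natDegree ≤ D

/-- height at most `H` -/
def Ht (H : ℝ) (P : ℤ[X][X]) : Prop := ∀ i j, |((P.coeff j).coeff i : ℝ)| ≤ H

lemma bd_iff (D : ℕ) (P : ℤ[X][X]) : Bd D P ↔ P.natDegree ≤ D ∧ (Bivariate.swap P).natDegree ≤ D := by
  refine and_congr_right fun h => ?_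
  constructor
  · intro h1
    rw [natDegree_le_iff_coeff_eq_zero]
    intro i hi
    ext j
    rw [swap_coeff, coeff_eq_zero_of_natDegree_lt (lt_of_le_of_lt (h1 j) hi), coeff_zero]
  · intro h1 j
    rw [natDegree_le_iff_coeff_eq_zero]
    intro i hi
    rw [← swap_coeff, coeff_eq_zero_of_natDegree_lt (lt_of_le_of_lt h1 hi), coeff_zero]

lemma Bd.of_mul {D : ℕ} {P Q : ℤ[X][X]} (hP : P ≠ 0) (h : Bd D (P * Q)) : Bd D Q := by
  by_cases hQ : Q = 0
  · subst hQ
    exact ⟨by simp, fun j => by simp⟩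
  rw [bd_iff] at h ⊢
  have hP' : Bivariate.swap P ≠ 0 := by
    rwa [Ne, EmbeddingLike.map_eq_zero_iff]
  have hQ' : Bivariate.swap Q ≠ 0 := by
    rwa [Ne, EmbeddingLike.map_eq_zero_iff]
  rw [map_mul, natDegree_mul hP hQ, natDegree_mul hP' hQ'] at h
  exact ⟨by omega, by omega⟩

lemma lin_mul_coeff (a b d : ℤ) (A : ℤ[X][X]) (i j : ℕ) : ((lin a b d * A).coeff j).coeff i =
    a * (A.coeff j).coeff i + b * (X * A.coeff j).coeff i + d * ((X * A).coeff j).coeff i := by
  have e : lin a b d * A = C (C a) * A + C (C b * X) * A + C (C d) * (X * A) := by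
    rw [lin, C_add]
    ring
  have e2 : (lin a b d * A).coeff j = C a * A.coeff j + C b * (X * A.coeff j) + C d * (X * A).coeff j := by
    rw [e]
    simp only [coeff_add, coeff_C_mul, mul_assoc]
  rw [e2]
  simp only [coeff_add, coeff_C_mul]

lemma X_coeff_le (q : ℤ[X]) (M : ℝ) (hM : 0 ≤ M) (h : ∀ i, |(q.coeff i : ℝ)| ≤ M) (i : ℕ) :
    |((X * q).coeff i : ℝ)| ≤ M := by
  rcases i with _ | i
  · rw [mul_coeff_zero, coeff_X_zero, zero_mul, Int.cast_zero, abs_zero]
    exact hM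
  · rw [coeff_X_mul]
    exact h i

lemma step {x y z p : ℝ} {a b d : ℤ} {H M : ℝ} (hd : d ≠ 0) (ha : |(a : ℝ)| ≤ |(d : ℝ)|)
    (hb : |(b : ℝ)| ≤ |(d : ℝ)|) (hH : 0 ≤ H) (hM : H ≤ M) (hp : |p| ≤ H) (hx : |x| ≤ M) (hy : |y| ≤ M)
    (e : p = a * x + b * y + d * z) : |z| ≤ 3 * M := by
  have hd1 : (1 : ℝ) ≤ |(d : ℝ)| := by exact_mod_cast Int.one_le_abs hd
  have e2 : (d : ℝ) * z = p - a * x - b * y := by rw [e]; ring
  have h1 : |(d : ℝ)| * |z| ≤ H + |(d : ℝ)| * M + |(d : ℝ)| * M := by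
    rw [← abs_mul, e2]
    calc |p - a * x - b * y| ≤ |p| + |(a : ℝ) * x| + |(b : ℝ) * y| := by
          have := abs_sub (p - a * x) (b * y)
          have := abs_sub p (a * x)
          linarith
      _ ≤ _ := by
          rw [abs_mul, abs_mul]
          gcongr
  have h2 : |(d : ℝ)| * |z| ≤ |(d : ℝ)| * (3 * M) := by
    nlinarith
  exact le_of_mul_le_mul_left h2 (by linarith)

/-- heights of cofactors -/
lemma cofactor (D : ℕ) (a b d : ℤ) (hne : lin a b d ≠ 0) (A : ℤ[X][X]) (H : ℝ) (hH : 0 ≤ H)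
    (hA : Bd D A) (h : Ht H (lin a b d * A)) : Ht (3 ^ (2 * D + 1) * H) A := by
  have h3 : ∀ n : ℕ, H ≤ 3 ^ n * H := fun n => le_mul_of_one_le_left hH (one_le_pow₀ (by norm_num))
  have hmono : ∀ n : ℕ, n ≤ 2 * D + 1 → (3 : ℝ) ^ n * H ≤ 3 ^ (2 * D + 1) * H := fun n hn =>
    mul_le_mul_of_nonneg_right (pow_le_pow_right₀ (by norm_num) hn) hH
  have hzero : ∀ i j, D < i ∨ D < j → (A.coeff j).coeff i = 0 := by
    rintro i j (hi | hj)
    · exact coeff_eq_zero_of_natDegree_lt (lt_of_le_of_lt (hA.2 j) hi)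
    · rw [coeff_eq_zero_of_natDegree_lt (lt_of_le_of_lt hA.1 hj), coeff_zero]
  have hz' : ∀ n : ℕ, |((0 : ℤ) : ℝ)| ≤ 3 ^ n * H := fun n => by
    rw [Int.cast_zero, abs_zero]; positivity
  have e : ∀ i j, (((lin a b d * A).coeff j).coeff i : ℝ) = a * ((A.coeff j).coeff i : ℝ) +
      b * ((X * A.coeff j).coeff i : ℝ) + d * (((X * A).coeff j).coeff i : ℝ) := by
    intro i j
    rw [lin_mul_coeff]
    push_cast
    ring
  have caseD : |(a : ℝ)| ≤ |(d : ℝ)| → |(b : ℝ)| ≤ |(d : ℝ)| → d ≠ 0 → ∀ n j, D + 1 ≤ j + n → ∀ i,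
      |((A.coeff j).coeff i : ℝ)| ≤ 3 ^ n * H := by
    intro h1 h2 hd n
    induction n with
    | zero =>
      intro j hj i
      rw [hzero i j (Or.inr (by omega))]
      exact hz' 0
    | succ n ih =>
      intro j hj i
      have h4 := ih (j + 1) (by omega)
      have h5 := e i (j + 1)
      rw [coeff_X_mul] at h5
      have h6 := step hd h1 h2 hH (h3 n) (h i (j + 1)) (h4 i)
        (X_coeff_le (A.coeff (j + 1)) (3 ^ n * H) (by positivity) h4 i) h5
      rw [pow_succ]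
      linarith
  have caseB : |(a : ℝ)| ≤ |(b : ℝ)| → |(d : ℝ)| ≤ |(b : ℝ)| → b ≠ 0 → ∀ n i, D + 1 ≤ i + n → ∀ j,
      |((A.coeff j).coeff i : ℝ)| ≤ 3 ^ n * H := by
    intro h1 h2 hb n
    induction n with
    | zero =>
      intro i hi j
      rw [hzero i j (Or.inl (by omega))]
      exact hz' 0
    | succ n ih =>
      intro i hi j
      have h4 := ih (i + 1) (by omega)
      have h5 := e (i + 1) j
      rw [coeff_X_mul] at h5
      have hy : |(((X * A).coeff j).coeff (i + 1) : ℝ)| ≤ 3 ^ n * H := by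
        rcases j with _ | j
        · rw [mul_coeff_zero, coeff_X_zero, zero_mul, coeff_zero]
          exact hz' n
        · rw [coeff_X_mul]
          exact h4 j
      have h6 := step hb h1 h2 hH (h3 n) (h (i + 1) j) (h4 j) hy
        (show (((lin a b d * A).coeff j).coeff (i + 1) : ℝ) = a * ((A.coeff j).coeff (i + 1) : ℝ) +
          d * (((X * A).coeff j).coeff (i + 1) : ℝ) + b * ((A.coeff j).coeff i : ℝ) by rw [h5]; ring)
      rw [pow_succ]
      linarith
  have caseA : |(b : ℝ)| ≤ |(a : ℝ)| → |(d : ℝ)| ≤ |(a : ℝ)| → a ≠ 0 → ∀ n i j, i + j ≤ n →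
      |((A.coeff j).coeff i : ℝ)| ≤ 3 ^ (n + 1) * H := by
    intro h1 h2 ha n
    induction n with
    | zero =>
      intro i j hij
      have hi : i = 0 := by omega
      have hj : j = 0 := by omega
      subst hi hj
      have h5 := e 0 0
      rw [coeff_X_mul_zero, coeff_X_mul_zero, coeff_zero] at h5
      have h6 := step (x := ((0 : ℤ) : ℝ)) (y := ((0 : ℤ) : ℝ)) ha h1 h2 hH le_rfl (h 0 0) (by simpa using hH)
        (by simpa using hH) (show (((lin a b d * A).coeff 0).coeff 0 : ℝ) = b * ((0 : ℤ) : ℝ) + d * ((0 : ℤ) : ℝ) +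
          a * ((A.coeff 0).coeff 0 : ℝ) by rw [h5]; ring)
      simpa using h6
    | succ n ih =>
      intro i j hij
      have h5 := e i j
      have hx : |((X * A.coeff j).coeff i : ℝ)| ≤ 3 ^ (n + 1) * H := by
        rcases i with _ | i
        · rw [mul_coeff_zero, coeff_X_zero, zero_mul]
          exact hz' (n + 1)
        · rw [coeff_X_mul]
          exact ih i j (by omega)
      have hy : |(((X * A).coeff j).coeff i : ℝ)| ≤ 3 ^ (n + 1) * H := by
        rcases j with _ | j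
        · rw [mul_coeff_zero, coeff_X_zero, zero_mul, coeff_zero]
          exact hz' (n + 1)
        · rw [coeff_X_mul]
          exact ih i j (by omega)
      have h6 := step ha h1 h2 hH (h3 (n + 1)) (h i j) hx hy
        (show (((lin a b d * A).coeff j).coeff i : ℝ) = b * ((X * A.coeff j).coeff i : ℝ) +
          d * (((X * A).coeff j).coeff i : ℝ) + a * ((A.coeff j).coeff i : ℝ) by rw [h5]; ring)
      rw [pow_succ]
      linarith
  have main : ∀ i j, i ≤ D → j ≤ D → |((A.coeff j).coeff i : ℝ)| ≤ 3 ^ (2 * D + 1) * H := by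
    intro i j hi hj
    have habs : ∀ x y : ℤ, |(x : ℝ)| ≤ |(y : ℝ)| → y = 0 → x = 0 := by
      rintro x y hxy rfl
      rw [Int.cast_zero, abs_zero] at hxy
      have := abs_nonpos_iff.1 hxy
      exact_mod_cast this
    rcases le_total |(a : ℝ)| |(d : ℝ)| with had | had
    · rcases le_total |(b : ℝ)| |(d : ℝ)| with hbd | hbd
      · have hd : d ≠ 0 := by
          intro h0
          apply hne
          rw [h0, habs a d had h0, habs b d hbd h0, lin]
          simp
        exact (caseD had hbd hd (D + 1 - j) j (by omega) i).trans (hmono _ (by omega))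
      · have hb : b ≠ 0 := by
          intro h0
          apply hne
          have h1 := habs d b hbd h0
          rw [h0, h1, habs a d had h1, lin]
          simp
        exact (caseB (had.trans hbd) hbd hb (D + 1 - i) i (by omega) j).trans (hmono _ (by omega))
    · rcases le_total |(b : ℝ)| |(a : ℝ)| with hba | hba
      · have ha : a ≠ 0 := by
          intro h0
          apply hne
          rw [h0, habs b a hba h0, habs d a had h0, lin]
          simp
        exact caseA hba had ha (2 * D) i j (by omega)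
      · have hb : b ≠ 0 := by
          intro h0
          apply hne
          have h1 := habs a b hba h0
          rw [h0, h1, habs d a had h1, lin]
          simp
        exact (caseB hba (had.trans hba) hb (D + 1 - i) i (by omega) j).trans (hmono _ (by omega))
  intro i j
  by_cases hi : i ≤ D
  · by_cases hj : j ≤ D
    · exact main i j hi hj
    · rw [hzero i j (Or.inr (by omega)), Int.cast_zero, abs_zero]
      positivity
  · rw [hzero i j (Or.inl (by omega)), Int.cast_zero, abs_zero]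
    positivity

lemma size_d (a b d : ℤ) (B : ℤ[X][X]) (hB : B ≠ 0) (H : ℝ) (h : Ht H (lin a b d * B)) : |(d : ℝ)| ≤ H := by
  by_cases hd : B.leadingCoeff.leadingCoeff = 0
  · exact absurd (leadingCoeff_eq_zero.1 (leadingCoeff_eq_zero.1 hd)) hB
  have h1 := h B.leadingCoeff.natDegree (B.natDegree + 1)
  rw [lin_mul_coeff, coeff_X_mul, coeff_eq_zero_of_natDegree_lt (Nat.lt_succ_self B.natDegree), mul_zero,
    coeff_zero, mul_zero, mul_zero, zero_add, zero_add] at h1
  exact abs_le_of_mul (b := B.leadingCoeff.leadingCoeff) hd h1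

lemma swap_lin (a b d : ℤ) : Bivariate.swap (lin a b d) = lin a d b := by
  unfold lin
  rw [map_add, map_mul, Bivariate.swap_C, Bivariate.swap_C_C, Bivariate.swap_Y]
  simp only [Polynomial.map_add, Polynomial.map_mul, map_C, map_X, C_add, C_mul]
  ring

lemma size_b (a b d : ℤ) (B : ℤ[X][X]) (hB : B ≠ 0) (H : ℝ) (h : Ht H (lin a b d * B)) : |(b : ℝ)| ≤ H := by
  refine size_d a d b (Bivariate.swap B) (by rwa [Ne, EmbeddingLike.map_eq_zero_iff]) H ?_
  rw [← swap_lin, ← map_mul]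
  intro i j
  rw [swap_coeff]
  exact h j i

lemma cofactor_pow (D : ℕ) (a b d : ℤ) (hne : lin a b d ≠ 0) (k : ℕ) : ∀ (A : ℤ[X][X]) (H : ℝ), 0 ≤ H →
    Bd D (lin a b d ^ k * A) → Ht H (lin a b d ^ k * A) → Ht ((3 ^ (2 * D + 1)) ^ k * H) A := by
  induction k with
  | zero =>
    intro A H hH hB h
    simpa using h
  | succ k ih =>
    intro A H hH hB h
    rw [pow_succ', mul_assoc] at hB h
    have h1 := cofactor D a b d hne _ H hH (hB.of_mul hne) h
    have h2 := ih A _ (by positivity) (hB.of_mul hne) h1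
    intro i j
    have h3 := h2 i j
    rw [pow_succ (3 ^ (2 * D + 1) : ℝ) k, mul_assoc]
    exact h3

/-- **No linear common factor.** -/
theorem core_gen (D : ℕ) : ∃ κ c : ℝ, 0 < κ ∧ 0 < c ∧ ∀ H : ℝ, 1 ≤ H →
    (∃ P : ℤ[X][X], P ≠ 0 ∧ Bd D P ∧ Ht H P ∧ |value P| < c * H ^ (-κ)) →
    ∃ F : ℤ[X][X], Irreducible F ∧ 0 < F.natDegree ∧ (∀ a b d : ℤ, F ≠ lin a b d) ∧
      (∀ Q : ℤ[X][X], Bd D Q → Ht H Q → |value Q| < c * H ^ (-κ) → F ∣ Q) ∧
      ∀ P : ℤ[X][X], P ≠ 0 → Tot2 P → Ht H P → |value P| < c * H ^ (-κ) →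
        ∃ a : ℤ, a ≠ 0 ∧ P = C (C a) * F := by
  obtain ⟨κ₁, hκ₁, h1⟩ := Pool.Agent.V11210.NA.principal (zeta 2 : ℂ) measT_zeta2 (max D 2)
  obtain ⟨c₁, hc₁, h1⟩ := h1 ‖(zeta 3 : ℂ)‖
  obtain ⟨c₀, hc₀, h0⟩ := Pool.Agent.TH120.HM.measure_all
  obtain ⟨c₂, hc₂, h2⟩ := lin_low
  obtain ⟨m, hm⟩ : ∃ m : ℝ, m = min 1 c₀ := ⟨_, rfl⟩
  have hm0 : 0 < m := by rw [hm]; positivity
  have hm1 : m ≤ 1 := by rw [hm]; exact min_le_left _ _
  have hmc : m ≤ c₀ := by rw [hm]; exact min_le_right _ _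
  obtain ⟨K, hK⟩ : ∃ K : ℝ, K = (3 ^ (2 * D + 1)) ^ D := ⟨_, rfl⟩
  have hK1 : 1 ≤ K := by rw [hK]; exact one_le_pow₀ (one_le_pow₀ (by norm_num))
  have hK0 : 0 < K := by linarith
  obtain ⟨κ, hκ⟩ : ∃ κ : ℝ, κ = κ₁ + 227 * D + 454 := ⟨_, rfl⟩
  obtain ⟨c, hc⟩ : ∃ c : ℝ, c = min (c₁ * K ^ (-κ₁) * m ^ D) c₂ := ⟨_, rfl⟩
  have hD0 : (0 : ℝ) ≤ D := Nat.cast_nonneg D
  have hκ0 : 0 < κ := by rw [hκ]; positivity
  have hc0 : 0 < c := by rw [hc]; positivity
  have hcle1 : c ≤ c₁ * K ^ (-κ₁) * m ^ D := by rw [hc]; exact min_le_left _ _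
  have hcle2 : c ≤ c₂ := by rw [hc]; exact min_le_right _ _
  refine ⟨κ, c, hκ0, hc0, fun H hH hex => ?_⟩
  have hH0 : 0 < H := by linarith
  have hKH : 1 ≤ K * H := one_le_mul_of_one_le_of_one_le hK1 hH
  obtain ⟨F, hF1, hF2, hF3⟩ := h1 (zeta 3 : ℂ) le_rfl (K * H) hKH
  have hpow2 : H ^ (-κ) ≤ H ^ (-454 : ℝ) := Real.rpow_le_rpow_of_exponent_le hH (by rw [hκ]; linarith)
  have le2 : c * H ^ (-κ) ≤ c₂ * H ^ (-454 : ℝ) := mul_le_mul hcle2 hpow2 (by positivity) hc₂.le
  have hKHp : (K * H) ^ (-κ₁) = K ^ (-κ₁) * H ^ (-κ₁) := Real.mul_rpow hK0.le hH0.le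
  have hmD : m ^ D ≤ 1 := pow_le_one₀ hm0.le hm1
  -- small values at the larger scale
  have key : ∀ k : ℕ, k ≤ D → c * H ^ (-κ) ≤ c₁ * (K * H) ^ (-κ₁) * (m * H ^ (-227 : ℝ)) ^ k := by
    intro k hk
    have e1 : (m * H ^ (-227 : ℝ)) ^ D ≤ (m * H ^ (-227 : ℝ)) ^ k := by
      apply pow_le_pow_of_le_one (by positivity) _ hk
      have : H ^ (-227 : ℝ) ≤ 1 := Real.rpow_le_one_of_one_le_of_nonpos hH (by norm_num)
      nlinarith [Real.rpow_pos_of_pos hH0 (-227 : ℝ)]
    have e2 : c₁ * (K * H) ^ (-κ₁) * (m * H ^ (-227 : ℝ)) ^ D =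
        c₁ * K ^ (-κ₁) * m ^ D * H ^ (-(κ₁ + 227 * D)) := by
      have e3 : (H ^ (-227 : ℝ)) ^ D = H ^ (-(227 * D) : ℝ) := by
        rw [← Real.rpow_natCast, ← Real.rpow_mul hH0.le]
        congr 1
        ring
      have e4 : H ^ (-(κ₁ + 227 * D)) = H ^ (-κ₁) * H ^ (-(227 * D) : ℝ) := by
        rw [← Real.rpow_add hH0]
        congr 1
        ring
      rw [mul_pow, e3, hKHp, e4]
      ring
    have e5 : H ^ (-κ) ≤ H ^ (-(κ₁ + 227 * D)) := Real.rpow_le_rpow_of_exponent_le hH (by rw [hκ]; linarith)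
    calc c * H ^ (-κ) ≤ c₁ * K ^ (-κ₁) * m ^ D * H ^ (-(κ₁ + 227 * D)) :=
          mul_le_mul hcle1 e5 (by positivity) (by positivity)
      _ = c₁ * (K * H) ^ (-κ₁) * (m * H ^ (-227 : ℝ)) ^ D := e2.symm
      _ ≤ _ := mul_le_mul_of_nonneg_left e1 (by positivity)
  have dv : ∀ Q : ℤ[X][X], Bd (max D 2) Q → Ht (K * H) Q → |value Q| < c₁ * (K * H) ^ (-κ₁) → F ∣ Q := by
    intro Q g1 g2 g3
    refine hF3 Q g1.1 g1.2 (fun j i => g2 i j) ?_
    rw [value_complex, Complex.norm_real, Real.norm_eq_abs]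
    exact g3
  have Hle : H ≤ K * H := le_mul_of_one_le_left hH0.le hK1
  have bdmax : ∀ Q : ℤ[X][X], Bd D Q → Bd (max D 2) Q := fun Q g =>
    ⟨g.1.trans (le_max_left _ _), fun j => (g.2 j).trans (le_max_left _ _)⟩
  have small : ∀ Q : ℤ[X][X], Bd (max D 2) Q → Ht H Q → |value Q| < c * H ^ (-κ) → F ∣ Q := by
    intro Q g1 g2 g3
    refine dv Q g1 (fun i j => (g2 i j).trans Hle) (g3.trans_le ?_)
    have := key 0 (Nat.zero_le _)
    simpa using this
  refine ⟨F, hF1, hF2, ?_, fun Q g1 g2 g3 => small Q (bdmax Q g1) g2 g3, fun P hP hT hs hv => ?_⟩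
  · rintro a b d rfl
    obtain ⟨P, hP0, hPD, hPH, hPv⟩ := hex
    obtain ⟨k, A, hnd, hPA⟩ := WfDvdMonoid.max_power_factor hP0 hF1
    have hne : lin a b d ≠ 0 := hF1.ne_zero
    have hA0 : A ≠ 0 := by
      rintro rfl
      exact hnd (dvd_zero _)
    have hdeg : k ≤ D := by
      have h4 := hPD.1
      rw [hPA, natDegree_mul (pow_ne_zero k hne) hA0, natDegree_pow] at h4
      nlinarith
    have hk : k ≠ 0 := by
      rintro rfl
      have h4 := small P (bdmax P hPD) hPH hPv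
      rw [hPA, pow_zero, one_mul] at h4
      exact hnd h4
    have hPH' := hPH
    rw [hPA] at hPD hPH
    have hAH := cofactor_pow D a b d hne k A H hH0.le hPD hPH
    have hAH' : Ht (K * H) A := by
      intro i j
      refine (hAH i j).trans ?_
      rw [hK]
      exact mul_le_mul_of_nonneg_right (pow_le_pow_right₀ (one_le_pow₀ (by norm_num)) hdeg) hH0.le
    have hAD : Bd D A := hPD.of_mul (pow_ne_zero k hne)
    obtain ⟨k', rfl⟩ := Nat.exists_eq_succ_of_ne_zero hk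
    have hB0 : lin a b d ^ k' * A ≠ 0 := mul_ne_zero (pow_ne_zero _ hne) hA0
    have hPH2 : Ht H (lin a b d * (lin a b d ^ k' * A)) := by
      rw [← mul_assoc, ← pow_succ']
      exact hPH
    have s1 := size_b a b d _ hB0 H hPH2
    have s2 := size_d a b d _ hB0 H hPH2
    have hn : ¬ (a = 0 ∧ b = 0 ∧ d = 0) := by
      rintro ⟨rfl, rfl, rfl⟩
      apply hne
      simp [lin]
    have hl : m * H ^ (-227 : ℝ) ≤ |value (lin a b d)| := by
      rw [value_lin]
      exact (mul_le_mul_of_nonneg_right hmc (by positivity)).trans (h0 a b d H hH hn s1 s2)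
    have hlow : 0 < m * H ^ (-227 : ℝ) := by positivity
    refine hnd (dv A (bdmax A hAD) hAH' ?_)
    have h5 : |value P| = |value (lin a b d)| ^ (k' + 1) * |value A| := by
      rw [hPA, value_mul, abs_mul, ← abs_pow]
      congr 2
      rw [value, value, Polynomial.map_pow, eval_pow]
    have h6 := lt_of_lt_of_le hPv (key (k' + 1) hdeg)
    rw [h5] at h6
    have h7 : (m * H ^ (-227 : ℝ)) ^ (k' + 1) ≤ |value (lin a b d)| ^ (k' + 1) :=
      pow_le_pow_left₀ hlow.le hl _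
    have h8 : (m * H ^ (-227 : ℝ)) ^ (k' + 1) * |value A| <
        (m * H ^ (-227 : ℝ)) ^ (k' + 1) * (c₁ * (K * H) ^ (-κ₁)) := by
      calc _ ≤ |value (lin a b d)| ^ (k' + 1) * |value A| := mul_le_mul_of_nonneg_right h7 (abs_nonneg _)
        _ < _ := by rw [mul_comm _ (c₁ * (K * H) ^ (-κ₁))]; exact h6
    exact lt_of_mul_lt_mul_left h8 (by positivity)
  · have hb2 : Bd (max D 2) P := ⟨hT.nat.trans (le_max_right _ _), fun j => by
      rcases Nat.lt_or_ge 2 j with hj | hj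
      · rw [coeff_eq_zero_of_natDegree_lt (lt_of_le_of_lt hT.nat hj), natDegree_zero]
        exact Nat.zero_le _
      · exact ((hT.coeff j hj).trans (Nat.sub_le _ _)).trans (le_max_right _ _)⟩
    have hd := small P hb2 hs hv
    rcases dich F P hF2 hd hP hT with h5 | ⟨a, b, d, a', b', d', e⟩
    · exact h5
    · exfalso
      rw [e] at hP hs hv
      have := h2 a b d a' b' d' H hH hP hs
      linarith

end Pool.Agent.H267.QZ
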