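import Pool.Agent.H267.QZ.Alg
import Pool.Agent.TH120.HM.Cor
import Pool.Agent.TH456.TM.Close
import Pool.Agent.TH550.NRZ.Unif
import Pool.Agent.V11210.NA.One

/-!
# Quadratic near relations between `ζ(2)` and `ζ(3)`
-/

set_option autoImplicit false

namespace Pool.Agent.H267.QZ

open Polynomial Pool.Agent.TH456.TM

/-- `ζ(k)` -/
noncomputable def zeta (k : ℕ) : ℝ := ∑' n : ℕ, 1 / ((n : ℝ) + 1) ^ k

/-- `P(ζ(2), ζ(3))` -/
noncomputable def value (P : ℤ[X][X]) : ℝ := (P.map (aeval (zeta 2)).toRingHom).eval (zeta 3)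

lemma value_mul (P Q : ℤ[X][X]) : value (P * Q) = value P * value Q := by
  rw [value, value, value, Polynomial.map_mul, eval_mul]

lemma value_lin (a b d : ℤ) : value (lin a b d) = a + b * zeta 2 + d * zeta 3 := by
  simp [value, lin]

lemma value_complex (P : ℤ[X][X]) : P.eval₂ (σx (zeta 2 : ℂ)) (zeta 3 : ℂ) = ((value P : ℝ) : ℂ) := by
  rw [value, eval_map]
  have h1 := Polynomial.hom_eval₂ P (aeval (zeta 2)).toRingHom Complex.ofRealHom (zeta 3)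
  have h2 : Complex.ofRealHom.comp (aeval (zeta 2) : ℤ[X] →ₐ[ℤ] ℝ).toRingHom = σx (zeta 2 : ℂ) := by
    apply Polynomial.ringHom_ext
    · intro a
      simp [σx]
    · simp [σx]
  rw [h2] at h1
  exact h1.symm

lemma measT_zeta2 : MeasT (zeta 2 : ℂ) := by
  have e : zeta 2 = Real.pi ^ 2 / 6 := Pool.Agent.LZ.Z2_value
  have h1 := measT_mul_alg (measT_pow measT_pi 2 (by norm_num)) (1 / 6) (by
    have h6 : IsAlgebraic ℤ (6 : ℂ) := by
      have := isAlgebraic_algebraMap (R := ℤ) (A := ℂ) 6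
      simpa using this
    rw [one_div]
    exact h6.inv) (by norm_num)
  have e2 : (zeta 2 : ℂ) = (Real.pi : ℂ) ^ 2 * (1 / 6) := by
    rw [e]
    push_cast
    ring
  rw [e2]
  exact h1

/-- products of two linear forms are not small -/
lemma lin_low : ∃ c : ℝ, 0 < c ∧ ∀ (a b d a' b' d' : ℤ) (H : ℝ), 1 ≤ H → lin a b d * lin a' b' d' ≠ 0 →
    (∀ i j, |(((lin a b d * lin a' b' d').coeff j).coeff i : ℝ)| ≤ H) →
    c * H ^ (-454 : ℝ) ≤ |value (lin a b d * lin a' b' d')| := by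
  obtain ⟨c, hc, h⟩ := Pool.Agent.TH120.HM.measure_all
  refine ⟨c ^ 2, by positivity, fun a b d a' b' d' H hH hne hs => ?_⟩
  have hH0 : 0 < H := by linarith
  have s1 := sizes a b d a' b' d' H hne hs
  have s2 := sizes a' b' d' a b d H (by rwa [mul_comm]) (by rwa [mul_comm])
  have n1 : ¬ (a = 0 ∧ b = 0 ∧ d = 0) := by
    rintro ⟨rfl, rfl, rfl⟩
    apply hne
    simp [lin]
  have n2 : ¬ (a' = 0 ∧ b' = 0 ∧ d' = 0) := by
    rintro ⟨rfl, rfl, rfl⟩
    apply hne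
    simp [lin]
  have k1 : c * H ^ (-227 : ℝ) ≤ |value (lin a b d)| := by
    rw [value_lin]
    exact h a b d H hH n1 s1.1 s1.2
  have k2 : c * H ^ (-227 : ℝ) ≤ |value (lin a' b' d')| := by
    rw [value_lin]
    exact h a' b' d' H hH n2 s2.1 s2.2
  rw [value_mul, abs_mul]
  have e : c ^ 2 * H ^ (-454 : ℝ) = (c * H ^ (-227 : ℝ)) * (c * H ^ (-227 : ℝ)) := by
    have : (-454 : ℝ) = -227 + -227 := by norm_num
    rw [this, Real.rpow_add hH0]
    ring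
  rw [e]
  exact mul_le_mul k1 k2 (by positivity) (abs_nonneg _)

/-- one irreducible polynomial at every scale, and all near relations of total degree at most two are
its integer multiples -/
lemma core (D : ℕ) : ∃ κ c : ℝ, 0 < κ ∧ 0 < c ∧ ∀ H : ℝ, 1 ≤ H → ∃ F : ℤ[X][X], Irreducible F ∧
    (∀ Q : ℤ[X][X], Q.natDegree ≤ D → (∀ j, (Q.coeff j).natDegree ≤ D) →
      (∀ i j, |((Q.coeff j).coeff i : ℝ)| ≤ H) → |value Q| < c * H ^ (-κ) → F ∣ Q) ∧
    ∀ P : ℤ[X][X], P ≠ 0 → Tot2 P → (∀ i j, |((P.coeff j).coeff i : ℝ)| ≤ H) →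
      |value P| < c * H ^ (-κ) → ∃ a : ℤ, a ≠ 0 ∧ P = C (C a) * F := by
  obtain ⟨κ₁, hκ₁, h1⟩ := Pool.Agent.V11210.NA.principal (zeta 2 : ℂ) measT_zeta2 (max D 2)
  obtain ⟨c₁, hc₁, h1⟩ := h1 ‖(zeta 3 : ℂ)‖
  obtain ⟨c₂, hc₂, h2⟩ := lin_low
  refine ⟨max κ₁ 454, min c₁ c₂, lt_max_of_lt_left hκ₁, lt_min hc₁ hc₂, fun H hH => ?_⟩
  have hH0 : 0 < H := by linarith
  obtain ⟨F, hF1, hF2, hF3⟩ := h1 (zeta 3 : ℂ) le_rfl H hH
  have hpow1 : H ^ (-(max κ₁ 454)) ≤ H ^ (-κ₁) :=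
    Real.rpow_le_rpow_of_exponent_le hH (neg_le_neg (le_max_left _ _))
  have hpow2 : H ^ (-(max κ₁ 454)) ≤ H ^ (-454 : ℝ) :=
    Real.rpow_le_rpow_of_exponent_le hH (neg_le_neg (le_max_right _ _))
  have le1 : min c₁ c₂ * H ^ (-(max κ₁ 454)) ≤ c₁ * H ^ (-κ₁) :=
    mul_le_mul (min_le_left _ _) hpow1 (by positivity) hc₁.le
  have le2 : min c₁ c₂ * H ^ (-(max κ₁ 454)) ≤ c₂ * H ^ (-454 : ℝ) :=
    mul_le_mul (min_le_right _ _) hpow2 (by positivity) hc₂.le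
  have dv : ∀ Q : ℤ[X][X], Q.natDegree ≤ max D 2 → (∀ j, (Q.coeff j).natDegree ≤ max D 2) →
      (∀ i j, |((Q.coeff j).coeff i : ℝ)| ≤ H) →
      |value Q| < min c₁ c₂ * H ^ (-(max κ₁ 454)) → F ∣ Q := by
    intro Q g1 g2 g3 g4
    refine hF3 Q g1 g2 (fun j i => g3 i j) ?_
    rw [value_complex, Complex.norm_real, Real.norm_eq_abs]
    exact g4.trans_le le1
  refine ⟨F, hF1, fun Q g1 g2 g3 g4 => dv Q (g1.trans (le_max_left _ _))
    (fun j => (g2 j).trans (le_max_left _ _)) g3 g4, fun P hP hT hs hv => ?_⟩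
  have hd := dv P (hT.nat.trans (le_max_right _ _)) (fun j => by
    rcases Nat.lt_or_ge 2 j with hj | hj
    · rw [coeff_eq_zero_of_natDegree_lt (lt_of_le_of_lt hT.nat hj), natDegree_zero]
      exact Nat.zero_le _
    · exact ((hT.coeff j hj).trans (Nat.sub_le _ _)).trans (le_max_right _ _)) hs hv
  rcases dich F P hF2 hd hP hT with h5 | ⟨a, b, d, a', b', d', e⟩
  · exact h5
  · exfalso
    rw [e] at hP hs hv
    have := h2 a b d a' b' d' H hH hP hs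
    linarith

end Pool.Agent.H267.QZ
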