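import Pool.Agent.H267.QZ.Gen

/-!
# The rank of the near relations
-/

set_option autoImplicit false

namespace Pool.Agent.H267.QZ

open Polynomial

/-- total degree at most `D` -/
def Tot (D : ℕ) (P : ℤ[X][X]) : Prop := ∀ i j, D < i + j → (P.coeff j).coeff i = 0

/-- `P(X, Y) ↦ P(XY, Y)` -/
noncomputable def sh : ℤ[X][X] →ₐ[ℤ] ℤ[X][X] := aevalAeval (C X * X : ℤ[X][X]) (X : ℤ[X][X])

lemma sh_monomial (n m : ℕ) (r : ℤ) : sh (monomial n (monomial m r)) = C (C r * X ^ m) * X ^ (m + n) := by
  rw [sh, ← C_mul_X_pow_eq_monomial, ← C_mul_X_pow_eq_monomial]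
  simp
  ring

lemma sh_coeff (P : ℤ[X][X]) (i n : ℕ) : ((sh P).coeff n).coeff i =
    if i ≤ n then (P.coeff (n - i)).coeff i else 0 := by
  induction P using Polynomial.induction_on' with
  | add p q hp hq =>
    rw [map_add, coeff_add, coeff_add, hp, hq]
    split_ifs
    · rw [coeff_add, coeff_add]
    · rw [add_zero]
  | monomial k f =>
    induction f using Polynomial.induction_on' with
    | add p q hp hq =>
      rw [LinearMap.map_add, map_add, coeff_add, coeff_add, hp, hq]
      split_ifs
      · rw [coeff_add, coeff_add]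
      · rw [add_zero]
    | monomial m r =>
      rw [sh_monomial, coeff_C_mul_X_pow, coeff_monomial]
      by_cases h : n = m + k
      · rw [if_pos h, coeff_C_mul_X_pow]
        by_cases h2 : i = m
        · subst h2
          rw [if_pos rfl, if_pos (by omega), if_pos (by omega), coeff_monomial, if_pos rfl]
        · rw [if_neg h2]
          split_ifs with h3 h4
          · rw [coeff_monomial, if_neg (fun h => h2 h.symm)]
          · rfl
          · rfl
      · rw [if_neg h, coeff_zero]
        split_ifs with h3 h4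
        · rw [coeff_monomial, if_neg]
          rintro rfl
          omega
        · rfl
        · rfl

lemma tot_iff (D : ℕ) (P : ℤ[X][X]) : Tot D P ↔ (sh P).natDegree ≤ D := by
  rw [natDegree_le_iff_coeff_eq_zero]
  constructor
  · intro h n hn
    ext i
    rw [sh_coeff, coeff_zero]
    split_ifs with h1
    · exact h i (n - i) (by omega)
    · rfl
  · intro h i j hij
    have h1 := congrArg (fun q : ℤ[X] => q.coeff i) (h (i + j) (by omega))
    simp only [sh_coeff, coeff_zero] at h1
    rw [if_pos (by omega), Nat.add_sub_cancel_left] at h1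
    exact h1

lemma sh_ne (P : ℤ[X][X]) (hP : P ≠ 0) : sh P ≠ 0 := by
  intro h
  apply hP
  ext j i
  have h1 := sh_coeff P i (i + j)
  rw [h, if_pos (by omega), Nat.add_sub_cancel_left, coeff_zero, coeff_zero] at h1
  rw [← h1, coeff_zero, coeff_zero]

/-- a polynomial of total degree at most one is linear -/
lemma tot_one (F : ℤ[X][X]) (h : Tot 1 F) : ∃ a b d : ℤ, F = lin a b d := by
  refine eq_lin F ?_ ?_ ?_
  · rw [natDegree_le_iff_coeff_eq_zero]
    intro j hj
    ext i
    rw [h i j (by omega), coeff_zero]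
  · rw [natDegree_le_iff_coeff_eq_zero]
    intro i hi
    exact h i 0 (by omega)
  · rw [← Nat.le_zero, natDegree_le_iff_coeff_eq_zero]
    intro i hi
    exact h i 1 (by omega)

/-- total degree of the cofactor -/
lemma tot_cofactor (D : ℕ) (F B : ℤ[X][X]) (hF : ¬ Tot 1 F) (h : Tot D (F * B)) :
    ∀ i j, D < i + j + 2 → (B.coeff j).coeff i = 0 := by
  intro i j hij
  by_cases hB : B = 0
  · rw [hB, coeff_zero, coeff_zero]
  have hF0 : F ≠ 0 := by
    rintro rfl
    apply hF
    intro i j _
    rw [coeff_zero, coeff_zero]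
  rw [tot_iff] at h hF
  rw [map_mul, natDegree_mul (sh_ne F hF0) (sh_ne B hB)] at h
  have h2 : Tot ((sh B).natDegree) B := (tot_iff _ _).2 le_rfl
  exact h2 i j (by omega)

/-- the pairs `(i, j)` with `i + j + 2 ≤ D` -/
def pairs (D : ℕ) : Finset (ℕ × ℕ) := (Finset.range (D - 1)).biUnion fun n => Finset.HasAntidiagonal.antidiagonal n

lemma mem_pairs (D i j : ℕ) : (i, j) ∈ pairs D ↔ i + j + 2 ≤ D := by
  simp only [pairs, Finset.mem_biUnion, Finset.mem_range, Finset.HasAntidiagonal.mem_antidiagonal]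
  constructor
  · rintro ⟨n, h1, h2⟩
    omega
  · intro h
    exact ⟨i + j, by omega, rfl⟩

lemma card_pairs (D : ℕ) : (pairs D).card ≤ D * (D - 1) / 2 := by
  have key : ∀ D : ℕ, (∑ n ∈ Finset.range D, (n + 1)) * 2 = (D + 1) * D := by
    intro D
    induction D with
    | zero => simp
    | succ D ih => rw [Finset.sum_range_succ, add_mul, ih]; ring
  refine (Finset.card_biUnion_le).trans ?_
  rw [Finset.sum_congr rfl fun n _ => Finset.Nat.card_antidiagonal n]
  rcases D with _ | D
  · simp
  · rw [Nat.add_sub_cancel, Nat.le_div_iff_mul_le (by norm_num), key D]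

/-- multiples of one polynomial which is not linear -/
lemma rank_bound (D : ℕ) (F : ℤ[X][X]) (hF : ¬ Tot 1 F) (n : ℕ) (P : Fin n → ℤ[X][X])
    (hP : LinearIndependent ℤ P) (hT : ∀ k, Tot D (P k)) (hd : ∀ k, F ∣ P k) : n ≤ D * (D - 1) / 2 := by
  choose B hB using hd
  have hB2 : ∀ k i j, D < i + j + 2 → ((B k).coeff j).coeff i = 0 := by
    intro k
    have := hT k
    rw [hB k] at this
    exact tot_cofactor D F (B k) hF this
  let L : ℤ[X][X] →ₗ[ℤ] (pairs D → ℤ) :=
    { toFun := fun Q s => (Q.coeff s.1.2).coeff s.1.1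
      map_add' := fun p q => by funext s; simp
      map_smul' := fun a p => by funext s; simp }
  have hLI : LinearIndependent ℤ (fun k => L (B k)) := by
    rw [Fintype.linearIndependent_iff] at hP ⊢
    intro g hg
    refine hP g ?_
    have h1 : ∑ k, g k • B k = 0 := by
      ext j i
      by_cases hij : i + j + 2 ≤ D
      · have h2 := congrFun hg ⟨(i, j), (mem_pairs D i j).2 hij⟩
        simp only [Finset.sum_apply, Pi.smul_apply, L, LinearMap.coe_mk, AddHom.coe_mk, Pi.zero_apply] at h2
        rw [finsetSum_coeff, finsetSum_coeff, coeff_zero, coeff_zero, ← h2]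
        refine Finset.sum_congr rfl fun k _ => ?_
        rw [coeff_smul, coeff_smul]
      · rw [finsetSum_coeff, finsetSum_coeff, coeff_zero, coeff_zero]
        refine Finset.sum_eq_zero fun k _ => ?_
        rw [coeff_smul, coeff_smul, hB2 k i j (by omega), smul_zero]
    calc ∑ k, g k • P k = F * ∑ k, g k • B k := by
          rw [Finset.mul_sum]
          refine Finset.sum_congr rfl fun k _ => ?_
          rw [hB k, mul_smul_comm]
      _ = 0 := by rw [h1, mul_zero]
  have h3 := hLI.fintype_card_le_finrank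
  rw [Fintype.card_fin, Module.finrank_fintype_fun_eq_card, Fintype.card_coe] at h3
  exact h3.trans (card_pairs D)

/-- **The rank of the near relations of total degree at most `D`.** -/
theorem rank (D : ℕ) : ∃ κ c : ℝ, 0 < κ ∧ 0 < c ∧ ∀ H : ℝ, 1 ≤ H → ∀ (n : ℕ) (P : Fin n → ℤ[X][X]),
    LinearIndependent ℤ P → (∀ k, Tot D (P k) ∧ Ht H (P k) ∧ |value (P k)| < c * H ^ (-κ)) →
    n ≤ D * (D - 1) / 2 := by
  obtain ⟨κ, c, hκ, hc, h⟩ := core_gen D
  refine ⟨κ, c, hκ, hc, fun H hH n P hP hk => ?_⟩
  rcases Nat.eq_zero_or_pos n with hn | hn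
  · omega
  have hbd : ∀ k, Bd D (P k) := by
    intro k
    refine ⟨?_, fun j => ?_⟩
    · rw [natDegree_le_iff_coeff_eq_zero]
      intro j hj
      ext i
      rw [(hk k).1 i j (by omega), coeff_zero]
    · rw [natDegree_le_iff_coeff_eq_zero]
      intro i hi
      exact (hk k).1 i j (by omega)
  obtain ⟨F, -, -, h1, h2, -⟩ := h H hH ⟨P ⟨0, hn⟩, hP.ne_zero _, hbd _, (hk _).2.1, (hk _).2.2⟩
  refine rank_bound D F (fun hF => ?_) n P hP (fun k => (hk k).1) fun k =>
    h2 (P k) (hbd k) (hk k).2.1 (hk k).2.2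
  obtain ⟨a, b, d, e⟩ := tot_one F hF
  exact h1 a b d e

end Pool.Agent.H267.QZ
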