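import Pool.Agent.H267.QZ.Rank

/-!
# Near relations between `ζ(2)` and `ζ(3)` and the weight
-/

set_option autoImplicit false

namespace Pool.Agent.H267.QZ

open Polynomial

/-- weight at most `N`, `X` of weight `2` and `Y` of weight `3` -/
def Wt (N : ℕ) (P : ℤ[X][X]) : Prop := ∀ i j, N < 2 * i + 3 * j → (P.coeff j).coeff i = 0

/-- homogeneous of weight `k` -/
def Hom (k : ℕ) (P : ℤ[X][X]) : Prop := ∀ i j, 2 * i + 3 * j ≠ k → (P.coeff j).coeff i = 0

/-- `R` is the homogeneous component of weight `k` of `P` -/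
def IsComp (k : ℕ) (P R : ℤ[X][X]) : Prop :=
  ∀ i j, (R.coeff j).coeff i = if 2 * i + 3 * j = k then (P.coeff j).coeff i else 0

/-- `P(X, Y) ↦ P(X Y², Y³)` -/
noncomputable def ws : ℤ[X][X] →ₐ[ℤ] ℤ[X][X] := aevalAeval (C X * X ^ 2 : ℤ[X][X]) (X ^ 3 : ℤ[X][X])

lemma ws_monomial (n m : ℕ) (r : ℤ) :
    ws (monomial n (monomial m r)) = C (C r * X ^ m) * X ^ (2 * m + 3 * n) := by
  rw [ws, ← C_mul_X_pow_eq_monomial, ← C_mul_X_pow_eq_monomial]
  simp
  ring

lemma ws_coeff (P : ℤ[X][X]) (i n : ℕ) : ((ws P).coeff n).coeff i =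
    if 2 * i + 3 * ((n - 2 * i) / 3) = n then (P.coeff ((n - 2 * i) / 3)).coeff i else 0 := by
  induction P using Polynomial.induction_on' with
  | add p q hp hq =>
    rw [map_add, coeff_add, coeff_add, hp, hq]
    split_ifs
    · rw [coeff_add, coeff_add]
    · rw [add_zero]
  | monomial k f =>
    induction f using Polynomial.induction_on' with
    | add p q hp hq =>
      rw [LinearMap.map_add, map_add, coeff_add, coeff_add, hp, hq]
      split_ifs
      · rw [coeff_add, coeff_add]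
      · rw [add_zero]
    | monomial m r =>
      rw [ws_monomial, coeff_C_mul_X_pow, coeff_monomial]
      by_cases h : n = 2 * m + 3 * k
      · rw [if_pos h, coeff_C_mul_X_pow]
        by_cases h2 : i = m
        · subst h2
          rw [if_pos rfl, if_pos (by omega), if_pos (by omega), coeff_monomial, if_pos rfl]
        · rw [if_neg h2]
          split_ifs with h3 h4
          · rw [coeff_monomial, if_neg (fun h => h2 h.symm)]
          · rfl
          · rfl
      · rw [if_neg h, coeff_zero]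
        split_ifs with h3 h4
        · rw [coeff_monomial, if_neg]
          rintro rfl
          omega
        · rfl
        · rfl

lemma ws_coeff' (P : ℤ[X][X]) (i j : ℕ) : ((ws P).coeff (2 * i + 3 * j)).coeff i = (P.coeff j).coeff i := by
  have e : (2 * i + 3 * j - 2 * i) / 3 = j := by omega
  rw [ws_coeff, e, if_pos rfl]

lemma wt_iff (N : ℕ) (P : ℤ[X][X]) : Wt N P ↔ (ws P).natDegree ≤ N := by
  rw [natDegree_le_iff_coeff_eq_zero]
  constructor
  · intro h n hn
    ext i
    rw [ws_coeff, coeff_zero]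
    split_ifs with h1
    · exact h i _ (by omega)
    · rfl
  · intro h i j hij
    rw [← ws_coeff', h _ hij, coeff_zero]

lemma ws_inj : Function.Injective ws := by
  intro P Q h
  ext j i
  rw [← ws_coeff' P, ← ws_coeff' Q, h]

lemma ws_ne (P : ℤ[X][X]) (hP : P ≠ 0) : ws P ≠ 0 := by
  intro h
  exact hP (ws_inj (h.trans (map_zero ws).symm))

lemma hom_iff (k : ℕ) (P : ℤ[X][X]) : Hom k P ↔ ws P = C ((ws P).coeff k) * X ^ k := by
  constructor
  · intro h
    ext n i
    rw [coeff_C_mul_X_pow]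
    split_ifs with h1
    · rw [h1]
    · rw [ws_coeff, coeff_zero]
      split_ifs with h2
      · exact h i _ (by omega)
      · rfl
  · intro h i j hij
    rw [← ws_coeff', h, coeff_C_mul_X_pow, if_neg hij, coeff_zero]

lemma ws_comp (k : ℕ) (P R : ℤ[X][X]) (h : IsComp k P R) : ws R = C ((ws P).coeff k) * X ^ k := by
  ext n i
  rw [coeff_C_mul_X_pow, ws_coeff]
  by_cases h1 : n = k
  · subst h1
    rw [if_pos rfl, ws_coeff]
    split_ifs with h2
    · rw [h, if_pos h2]
    · rfl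
  · rw [if_neg h1, coeff_zero]
    split_ifs with h2
    · rw [h, if_neg (by omega)]
    · rfl

/-- the homogeneous component -/
noncomputable def comp (k : ℕ) (P : ℤ[X][X]) : ℤ[X][X] :=
  ∑ j ∈ Finset.range (k + 1), C (C (if 2 * ((k - 3 * j) / 2) + 3 * j = k then
    (P.coeff j).coeff ((k - 3 * j) / 2) else 0) * X ^ ((k - 3 * j) / 2)) * X ^ j

lemma comp_isComp (k : ℕ) (P : ℤ[X][X]) : IsComp k P (comp k P) := by
  intro i j
  rw [comp, finsetSum_coeff, finsetSum_coeff]
  by_cases hj : j ∈ Finset.range (k + 1)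
  · rw [Finset.sum_eq_single_of_mem j hj]
    · rw [coeff_C_mul_X_pow, if_pos rfl, coeff_C_mul_X_pow]
      by_cases h1 : i = (k - 3 * j) / 2
      · subst h1
        rw [if_pos rfl]
      · rw [if_neg h1, if_neg]
        omega
    · intro b _ hb
      rw [coeff_C_mul_X_pow, if_neg (fun h => hb h.symm), coeff_zero]
  · rw [Finset.sum_eq_zero, if_neg]
    · intro h
      apply hj
      rw [Finset.mem_range]
      omega
    · intro b hb
      rw [coeff_C_mul_X_pow, if_neg, coeff_zero]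
      rintro rfl
      exact hj hb

/-- factors of homogeneous polynomials are homogeneous -/
lemma hom_of_dvd (k : ℕ) (F G : ℤ[X][X]) (hne : F * G ≠ 0) (h : Hom k (F * G)) : ∃ f, Hom f F := by
  have hF : F ≠ 0 := left_ne_zero_of_mul hne
  have hG : G ≠ 0 := right_ne_zero_of_mul hne
  have h1 := (hom_iff _ _).1 h
  have hc : (ws (F * G)).coeff k ≠ 0 := by
    intro h2
    rw [h2, C_0, zero_mul] at h1
    exact ws_ne _ hne h1
  have e1 : (ws (F * G)).natDegree = k := by
    rw [h1]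
    exact natDegree_C_mul_X_pow k _ hc
  have e2 : (ws (F * G)).natTrailingDegree = k := by
    rw [h1, C_mul_X_pow_eq_monomial]
    exact natTrailingDegree_monomial hc
  rw [map_mul, natDegree_mul (ws_ne F hF) (ws_ne G hG)] at e1
  rw [map_mul, natTrailingDegree_mul (ws_ne F hF) (ws_ne G hG)] at e2
  have l1 := natTrailingDegree_le_natDegree (ws F)
  have l2 := natTrailingDegree_le_natDegree (ws G)
  refine ⟨(ws F).natDegree, fun i j hij => ?_⟩
  rw [← ws_coeff']
  rcases lt_or_gt_of_ne hij with h3 | h3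
  · have h4 : 2 * i + 3 * j < (ws F).natTrailingDegree := by omega
    rw [coeff_eq_zero_of_lt_natTrailingDegree h4, coeff_zero]
  · rw [coeff_eq_zero_of_natDegree_lt h3, coeff_zero]

/-- a homogeneous divisor divides the components -/
lemma dvd_comp (f k : ℕ) (F Q R : ℤ[X][X]) (hF : Hom f F) (hd : F ∣ Q) (hR : IsComp k Q R) : F ∣ R := by
  obtain ⟨G, rfl⟩ := hd
  have hF1 := (hom_iff _ _).1 hF
  have hR1 := ws_comp _ _ _ hR
  by_cases hk : f ≤ k
  · refine ⟨comp (k - f) G, ws_inj ?_⟩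
    rw [map_mul, ws_comp _ _ _ (comp_isComp (k - f) G), hR1, map_mul, hF1]
    have e1 : (C ((ws F).coeff f) * X ^ f * ws G).coeff k = (ws F).coeff f * (ws G).coeff (k - f) := by
      rw [mul_assoc, coeff_C_mul, coeff_X_pow_mul', if_pos hk]
    rw [e1, C_mul]
    have e2 : (C ((ws F).coeff f) * X ^ f : ℤ[X][X]).coeff f = (ws F).coeff f := by
      rw [coeff_C_mul_X_pow, if_pos rfl]
    have e3 : (X : ℤ[X][X]) ^ k = X ^ f * X ^ (k - f) := by
      rw [← pow_add]
      congr 1
      omega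
    rw [e3]
    ring
  · have e1 : (ws (F * G)).coeff k = 0 := by
      rw [map_mul, hF1, mul_assoc, coeff_C_mul, coeff_X_pow_mul', if_neg hk, mul_zero]
    rw [e1, C_0, zero_mul] at hR1
    have : R = 0 := ws_inj (hR1.trans (map_zero ws).symm)
    rw [this]
    exact dvd_zero F

/-- weight of the cofactor -/
lemma wt_cofactor (N : ℕ) (F B : ℤ[X][X]) (hF : ¬ Tot 1 F) (h : Wt N (F * B)) :
    ∀ i j, N < 2 * i + 3 * j + 4 → (B.coeff j).coeff i = 0 := by
  intro i j hij
  by_cases hB : B = 0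
  · rw [hB, coeff_zero, coeff_zero]
  have hF0 : F ≠ 0 := by
    rintro rfl
    apply hF
    intro i j _
    rw [coeff_zero, coeff_zero]
  have hF3 : ¬ Wt 3 F := by
    intro h3
    apply hF
    intro i j hij
    exact h3 i j (by omega)
  rw [wt_iff] at h hF3
  rw [map_mul, natDegree_mul (ws_ne F hF0) (ws_ne B hB)] at h
  have h2 : Wt ((ws B).natDegree) B := (wt_iff _ _).2 le_rfl
  exact h2 i j (by omega)

/-- the pairs `(i, j)` with `2 i + 3 j < n` -/
def wpairs (n : ℕ) : Finset (ℕ × ℕ) :=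
  (Finset.range n ×ˢ Finset.range n).filter fun s => 2 * s.1 + 3 * s.2 < n

lemma mem_wpairs (n i j : ℕ) : (i, j) ∈ wpairs n ↔ 2 * i + 3 * j < n := by
  simp only [wpairs, Finset.mem_filter, Finset.mem_product, Finset.mem_range]
  omega

/-- multiples of one polynomial which is not linear -/
lemma wrank_bound (N : ℕ) (F : ℤ[X][X]) (hF : ¬ Tot 1 F) (n : ℕ) (P : Fin n → ℤ[X][X])
    (hP : LinearIndependent ℤ P) (hT : ∀ k, Wt N (P k)) (hd : ∀ k, F ∣ P k) : n ≤ (wpairs (N - 3)).card := by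
  choose B hB using hd
  have hB2 : ∀ k i j, N < 2 * i + 3 * j + 4 → ((B k).coeff j).coeff i = 0 := by
    intro k
    have := hT k
    rw [hB k] at this
    exact wt_cofactor N F (B k) hF this
  let L : ℤ[X][X] →ₗ[ℤ] (wpairs (N - 3) → ℤ) :=
    { toFun := fun Q s => (Q.coeff s.1.2).coeff s.1.1
      map_add' := fun p q => by funext s; simp
      map_smul' := fun a p => by funext s; simp }
  have hLI : LinearIndependent ℤ (fun k => L (B k)) := by
    rw [Fintype.linearIndependent_iff] at hP ⊢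
    intro g hg
    refine hP g ?_
    have h1 : ∑ k, g k • B k = 0 := by
      ext j i
      by_cases hij : 2 * i + 3 * j + 4 ≤ N
      · have h2 := congrFun hg ⟨(i, j), (mem_wpairs (N - 3) i j).2 (by omega)⟩
        simp only [Finset.sum_apply, Pi.smul_apply, L, LinearMap.coe_mk, AddHom.coe_mk, Pi.zero_apply] at h2
        rw [finsetSum_coeff, finsetSum_coeff, coeff_zero, coeff_zero, ← h2]
        refine Finset.sum_congr rfl fun k _ => ?_
        rw [coeff_smul, coeff_smul]
      · rw [finsetSum_coeff, finsetSum_coeff, coeff_zero, coeff_zero]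
        refine Finset.sum_eq_zero fun k _ => ?_
        rw [coeff_smul, coeff_smul, hB2 k i j (by omega), smul_zero]
    calc ∑ k, g k • P k = F * ∑ k, g k • B k := by
          rw [Finset.mul_sum]
          refine Finset.sum_congr rfl fun k _ => ?_
          rw [hB k, mul_smul_comm]
      _ = 0 := by rw [h1, mul_zero]
  have h3 := hLI.fintype_card_le_finrank
  rwa [Fintype.card_fin, Module.finrank_fintype_fun_eq_card, Fintype.card_coe] at h3

lemma wt_bd (N : ℕ) (P : ℤ[X][X]) (h : Wt N P) : Bd N P := by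
  refine ⟨?_, fun j => ?_⟩
  · rw [natDegree_le_iff_coeff_eq_zero]
    intro j hj
    ext i
    rw [h i j (by omega), coeff_zero]
  · rw [natDegree_le_iff_coeff_eq_zero]
    intro i hi
    exact h i j (by omega)

/-- **Near relations of bounded weight.** -/
theorem wcore (N : ℕ) : ∃ κ c : ℝ, 0 < κ ∧ 0 < c ∧ ∀ H : ℝ, 1 ≤ H →
    (∀ (n : ℕ) (P : Fin n → ℤ[X][X]), LinearIndependent ℤ P →
      (∀ k, Wt N (P k) ∧ Ht H (P k) ∧ |value (P k)| < c * H ^ (-κ)) → n ≤ (wpairs (N - 3)).card) ∧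
    ((∃ (k : ℕ) (P : ℤ[X][X]), P ≠ 0 ∧ k ≤ N ∧ Hom k P ∧ Ht H P ∧ |value P| < c * H ^ (-κ)) →
      ∃ (f : ℕ) (F : ℤ[X][X]), Irreducible F ∧ 0 < F.natDegree ∧ ¬ Tot 1 F ∧ Hom f F ∧
        ∀ Q : ℤ[X][X], Wt N Q → Ht H Q → |value Q| < c * H ^ (-κ) → ∀ (k : ℕ) (R : ℤ[X][X]),
          IsComp k Q R → F ∣ R) := by
  obtain ⟨κ, c, hκ, hc, h⟩ := core_gen N
  refine ⟨κ, c, hκ, hc, fun H hH => ⟨fun n P hP hk => ?_, ?_⟩⟩
  · rcases Nat.eq_zero_or_pos n with hn | hn
    · omega
    obtain ⟨F, -, -, h1, h2, -⟩ := h H hH ⟨P ⟨0, hn⟩, hP.ne_zero _, wt_bd _ _ (hk _).1, (hk _).2.1, (hk _).2.2⟩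
    refine wrank_bound N F (fun hF => ?_) n P hP (fun k => (hk k).1) fun k =>
      h2 (P k) (wt_bd _ _ (hk k).1) (hk k).2.1 (hk k).2.2
    obtain ⟨a, b, d, e⟩ := tot_one F hF
    exact h1 a b d e
  · rintro ⟨k, P, hP, hk, hom, hHt, hv⟩
    have hW : Wt N P := fun i j hij => hom i j (by omega)
    obtain ⟨F, hF1, hF2, hF3, hF4, -⟩ := h H hH ⟨P, hP, wt_bd _ _ hW, hHt, hv⟩
    obtain ⟨G, hG⟩ := hF4 P (wt_bd _ _ hW) hHt hv
    obtain ⟨f, hf⟩ := hom_of_dvd k F G (hG ▸ hP) (hG ▸ hom)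
    refine ⟨f, F, hF1, hF2, fun hT => ?_, hf, fun Q hQ1 hQ2 hQ3 k' R hR => ?_⟩
    · obtain ⟨a, b, d, e⟩ := tot_one F hT
      exact hF3 a b d e
    · exact dvd_comp f k' F Q R hf (hF4 Q (wt_bd _ _ hQ1) hQ2 hQ3) hR

end Pool.Agent.H267.QZ
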