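import Pool.Agent.H267.QZ.Weight
import Pool.Agent.H447R2.MZ.Tup

/-!
# Relations between `ζ(2)` and `ζ(3)` and the weight
-/

set_option autoImplicit false

namespace Pool.Agent.H267.QZ

open Polynomial

lemma ht_exists (P : ℤ[X][X]) : ∃ H : ℝ, 1 ≤ H ∧ Ht H P := by
  have h0 : ∀ j, 0 ≤ ∑ i ∈ (P.coeff j).support, |((P.coeff j).coeff i : ℝ)| :=
    fun j => Finset.sum_nonneg fun _ _ => abs_nonneg _
  refine ⟨1 + ∑ j ∈ P.support, ∑ i ∈ (P.coeff j).support, |((P.coeff j).coeff i : ℝ)|,
    le_add_of_nonneg_right (Finset.sum_nonneg fun j _ => h0 j), ?_⟩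
  intro i j
  have h1 : 0 ≤ ∑ j ∈ P.support, ∑ i ∈ (P.coeff j).support, |((P.coeff j).coeff i : ℝ)| :=
    Finset.sum_nonneg fun j _ => h0 j
  by_cases h : (P.coeff j).coeff i = 0
  · rw [h, Int.cast_zero, abs_zero]
    linarith
  · have hj : j ∈ P.support := by
      rw [mem_support_iff]
      intro h2
      rw [h2, coeff_zero] at h
      exact h rfl
    have hi : i ∈ (P.coeff j).support := by rwa [mem_support_iff]
    have a1 := Finset.single_le_sum (f := fun i => |((P.coeff j).coeff i : ℝ)|) (fun _ _ => abs_nonneg _) hi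
    have a2 := Finset.single_le_sum
      (f := fun j => ∑ i ∈ (P.coeff j).support, |((P.coeff j).coeff i : ℝ)|) (fun j _ => h0 j) hj
    linarith

/-- **The rank of the relations of weight at most `N`.** -/
theorem exact_rank (N n : ℕ) (P : Fin n → ℤ[X][X]) (hP : LinearIndependent ℤ P)
    (h : ∀ k, Wt N (P k) ∧ value (P k) = 0) : n ≤ (wpairs (N - 3)).card := by
  obtain ⟨κ, c, hκ, hc, h1⟩ := wcore N
  choose Hk h2 h3 using fun k => ht_exists (P k)
  have h4 : 1 ≤ 1 + ∑ k, Hk k := le_add_of_nonneg_right (Finset.sum_nonneg fun k _ => by linarith [h2 k])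
  refine (h1 (1 + ∑ k, Hk k) h4).1 n P hP fun k => ⟨(h k).1, ?_, ?_⟩
  · intro i j
    have a1 := h3 k i j
    have a2 := Finset.single_le_sum (f := Hk) (fun k _ => by linarith [h2 k]) (Finset.mem_univ k)
    linarith
  · rw [(h k).2, abs_zero]
    have : 0 < (1 + ∑ k, Hk k) ^ (-κ) := Real.rpow_pos_of_pos (by linarith) _
    positivity

/-- the polynomial with given coefficients -/
noncomputable def pol (n : ℕ) : (wpairs n → ℤ) →ₗ[ℤ] ℤ[X][X] where
  toFun v := ∑ s : wpairs n, v s • (monomial s.1.2 (monomial s.1.1 (1 : ℤ)))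
  map_add' v w := by simp [add_smul, Finset.sum_add_distrib]
  map_smul' a v := by simp [mul_smul, Finset.smul_sum]

lemma pol_coeff (n : ℕ) (v : wpairs n → ℤ) (s : wpairs n) : ((pol n v).coeff s.1.2).coeff s.1.1 = v s := by
  classical
  change (((∑ t : wpairs n, v t • (monomial t.1.2 (monomial t.1.1 (1 : ℤ)))) : ℤ[X][X]).coeff s.1.2).coeff s.1.1 = v s
  rw [finsetSum_coeff, finsetSum_coeff, Finset.sum_eq_single s]
  · rw [coeff_smul, coeff_smul, coeff_monomial, if_pos rfl, coeff_monomial, if_pos rfl, smul_eq_mul, mul_one]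
  · intro t _ hts
    rw [coeff_smul, coeff_smul, coeff_monomial]
    split_ifs with h1
    · rw [coeff_monomial, if_neg, smul_zero]
      intro h2
      exact hts (Subtype.ext (Prod.ext h2 h1))
    · rw [coeff_zero, smul_zero]
  · intro h
    exact absurd (Finset.mem_univ s) h

lemma pol_wt (N : ℕ) (v : wpairs (N + 1) → ℤ) : Wt N (pol (N + 1) v) := by
  intro i j hij
  change (((∑ t : wpairs (N + 1), v t • (monomial t.1.2 (monomial t.1.1 (1 : ℤ)))) : ℤ[X][X]).coeff j).coeff i = 0
  rw [finsetSum_coeff, finsetSum_coeff]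
  refine Finset.sum_eq_zero fun t _ => ?_
  have ht := (mem_wpairs (N + 1) t.1.1 t.1.2).1 t.2
  rw [coeff_smul, coeff_smul, coeff_monomial]
  split_ifs with h1
  · rw [coeff_monomial, if_neg (by omega), smul_zero]
  · rw [coeff_zero, smul_zero]

/-- the value as a ring homomorphism -/
noncomputable def valHom : ℤ[X][X] →+* ℝ := (evalRingHom (zeta 3)).comp (mapRingHom (aeval (zeta 2)).toRingHom)

lemma valHom_apply (P : ℤ[X][X]) : valHom P = value P := rfl

lemma pol_value (n : ℕ) (v : wpairs n → ℤ) :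
    value (pol n v) = ∑ s : wpairs n, (v s : ℝ) * (zeta 2 ^ s.1.1 * zeta 3 ^ s.1.2) := by
  rw [← valHom_apply]
  change valHom (∑ t : wpairs n, v t • (monomial t.1.2 (monomial t.1.1 (1 : ℤ)))) = _
  rw [map_sum]
  refine Finset.sum_congr rfl fun s _ => ?_
  rw [map_zsmul, zsmul_eq_mul, valHom_apply, value]
  congr 1
  rw [Polynomial.map_monomial, eval_monomial]
  congr 1
  change aeval (zeta 2) (monomial s.1.1 (1 : ℤ)) = _
  rw [aeval_monomial, map_one, one_mul]

lemma card_wpairs (N : ℕ) : (wpairs (N - 3)).card + (2 * N / 3 + 1) ≤ (wpairs (N + 1)).card := by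
  classical
  obtain ⟨A, hA⟩ : ∃ A : Finset (ℕ × ℕ), A = (wpairs (N - 3)).image fun s => (s.1 + 2, s.2) := ⟨_, rfl⟩
  obtain ⟨B, hB⟩ : ∃ B : Finset (ℕ × ℕ), B = (Finset.range (N / 3 + 1)).image fun j => (0, j) := ⟨_, rfl⟩
  obtain ⟨E, hE⟩ : ∃ E : Finset (ℕ × ℕ), E = (Finset.range ((N + 1) / 3)).image fun j => (1, j) := ⟨_, rfl⟩
  have cA : A.card = (wpairs (N - 3)).card := by
    rw [hA, Finset.card_image_of_injective]
    intro a b hab
    simp only [Prod.mk.injEq] at hab
    exact Prod.ext (by omega) hab.2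
  have cB : B.card = N / 3 + 1 := by
    rw [hB, Finset.card_image_of_injective, Finset.card_range]
    intro a b hab
    simpa using hab
  have cE : E.card = (N + 1) / 3 := by
    rw [hE, Finset.card_image_of_injective, Finset.card_range]
    intro a b hab
    simpa using hab
  have dBE : Disjoint B E := by
    rw [Finset.disjoint_left, hB, hE]
    intro s h1 h2
    rw [Finset.mem_image] at h1 h2
    obtain ⟨a, -, rfl⟩ := h1
    obtain ⟨b, -, h3⟩ := h2
    simp at h3
  have dA : Disjoint A (B ∪ E) := by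
    rw [Finset.disjoint_left, hA, hB, hE]
    intro s h1 h2
    rw [Finset.mem_union, Finset.mem_image, Finset.mem_image] at h2
    rw [Finset.mem_image] at h1
    obtain ⟨a, -, rfl⟩ := h1
    rcases h2 with ⟨b, -, h3⟩ | ⟨b, -, h3⟩
    · simp at h3
    · simp at h3
  have hsub : A ∪ (B ∪ E) ⊆ wpairs (N + 1) := by
    intro s hs
    rw [Finset.mem_union, Finset.mem_union, hA, hB, hE, Finset.mem_image, Finset.mem_image, Finset.mem_image] at hs
    rcases hs with ⟨⟨a, b⟩, h, rfl⟩ | ⟨b, h, rfl⟩ | ⟨b, h, rfl⟩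
    · rw [mem_wpairs] at h ⊢
      simp only
      omega
    · rw [Finset.mem_range] at h
      rw [mem_wpairs]
      omega
    · rw [Finset.mem_range] at h
      rw [mem_wpairs]
      omega
  have h1 := Finset.card_le_card hsub
  rw [Finset.card_union_of_disjoint dA, Finset.card_union_of_disjoint dBE, cA, cB, cE] at h1
  omega

/-- the products of `ζ(2)` and `ζ(3)` of weight at most `N` -/
noncomputable def prods (N : ℕ) : Submodule ℚ ℝ :=
  Submodule.span ℚ {x | ∃ i j : ℕ, 2 * i + 3 * j ≤ N ∧ x = zeta 2 ^ i * zeta 3 ^ j}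

theorem dim_bound (N : ℕ) : ((2 * N / 3 + 1 : ℕ) : Cardinal) ≤ Module.rank ℚ (prods N) := by
  classical
  let v : wpairs (N + 1) → ℝ := fun s => zeta 2 ^ s.1.1 * zeta 3 ^ s.1.2
  let T : (wpairs (N + 1) → ℚ) →ₗ[ℚ] ℝ := Fintype.linearCombination ℚ v
  have hT : ∀ x, T x = ∑ s, x s • v s := fun x => Fintype.linearCombination_apply ℚ v x
  have hrange : LinearMap.range T = prods N := by
    rw [Fintype.range_linearCombination, prods]
    congr 1
    ext x
    constructor
    · rintro ⟨s, rfl⟩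
      have hs := (mem_wpairs (N + 1) s.1.1 s.1.2).1 s.2
      exact ⟨s.1.1, s.1.2, by omega, rfl⟩
    · rintro ⟨i, j, hij, rfl⟩
      exact ⟨⟨(i, j), (mem_wpairs (N + 1) i j).2 (by omega)⟩, rfl⟩
  have hrn := LinearMap.finrank_range_add_finrank_ker T
  rw [Module.finrank_fintype_fun_eq_card, Fintype.card_coe] at hrn
  have hker : Module.finrank ℚ (LinearMap.ker T) ≤ (wpairs (N - 3)).card := by
    let b := Module.finBasis ℚ (LinearMap.ker T)
    obtain ⟨d, hd⟩ := IsLocalization.exist_integer_multiples_of_finite (nonZeroDivisors ℤ)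
      (fun q : Fin (Module.finrank ℚ (LinearMap.ker T)) × wpairs (N + 1) => ((b q.1 : wpairs (N + 1) → ℚ) q.2))
    have hd0 : ((d : ℤ) : ℚ) ≠ 0 := by
      have := nonZeroDivisors.coe_ne_zero d
      exact_mod_cast this
    choose u hu using hd
    have hu' : ∀ k s, (u (k, s) : ℚ) = ((d : ℤ) : ℚ) * (b k : wpairs (N + 1) → ℚ) s := by
      intro k s
      have := hu (k, s)
      rw [eq_intCast, Algebra.smul_def, eq_intCast] at this
      exact this
    refine exact_rank N _ (fun k => pol (N + 1) fun s => u (k, s)) ?_ fun k => ⟨pol_wt N _, ?_⟩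
    · rw [Fintype.linearIndependent_iff]
      intro g hg k
      have h1 : ∀ s, ∑ k, g k * u (k, s) = 0 := by
        intro s
        have h2 := congrArg (fun P : ℤ[X][X] => (P.coeff s.1.2).coeff s.1.1) hg
        simp only [coeff_zero] at h2
        rw [finsetSum_coeff, finsetSum_coeff] at h2
        rw [← h2]
        refine Finset.sum_congr rfl fun k _ => ?_
        rw [coeff_smul, coeff_smul, pol_coeff, smul_eq_mul]
      have h3 : ∑ k, (g k : ℚ) • b k = 0 := by
        apply Subtype.ext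
        funext s
        have h4 : ((d : ℤ) : ℚ) * ∑ k, (g k : ℚ) * (b k : wpairs (N + 1) → ℚ) s = 0 := by
          have h5 : ((∑ k, g k * u (k, s) : ℤ) : ℚ) = 0 := by rw [h1 s]; rfl
          rw [Int.cast_sum] at h5
          rw [← h5, Finset.mul_sum]
          refine Finset.sum_congr rfl fun k _ => ?_
          rw [Int.cast_mul, hu']
          ring
        have h6 := (mul_eq_zero.1 h4).resolve_left hd0
        simpa [Finset.sum_apply] using h6
      have h7 := Fintype.linearIndependent_iff.1 b.linearIndependent (fun k => (g k : ℚ)) h3 k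
      exact_mod_cast h7
    · rw [pol_value]
      have h1 : T (b k : wpairs (N + 1) → ℚ) = 0 := (b k).2
      rw [hT] at h1
      calc ∑ s : wpairs (N + 1), (u (k, s) : ℝ) * (zeta 2 ^ s.1.1 * zeta 3 ^ s.1.2)
          = ((d : ℤ) : ℝ) * ∑ s, (b k : wpairs (N + 1) → ℚ) s • v s := by
            rw [Finset.mul_sum]
            refine Finset.sum_congr rfl fun s _ => ?_
            have h2 : ((u (k, s) : ℚ) : ℝ) = ((((d : ℤ) : ℚ) * (b k : wpairs (N + 1) → ℚ) s : ℚ) : ℝ) := by
              rw [hu']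
            push_cast at h2
            rw [h2, Rat.smul_def]
            ring
        _ = 0 := by rw [h1, mul_zero]
  have h8 : 2 * N / 3 + 1 ≤ Module.finrank ℚ (LinearMap.range T) := by
    have := card_wpairs N
    omega
  rw [hrange] at h8
  have h9 : FiniteDimensional ℚ (prods N) := by
    rw [← hrange]
    infer_instance
  rw [← Module.finrank_eq_rank]
  exact_mod_cast h8

lemma hom_deg (k : ℕ) (P : ℤ[X][X]) (hP : P ≠ 0) (h : Hom k P) : (ws P).natDegree = k := by
  have h1 := (hom_iff _ _).1 h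
  have hc : (ws P).coeff k ≠ 0 := by
    intro h2
    rw [h2, C_0, zero_mul] at h1
    exact ws_ne _ hP h1
  rw [h1]
  exact natDegree_C_mul_X_pow k _ hc

/-- **Relations: homogeneous ones imply directness.** -/
theorem exact_alt (Q : ℤ[X][X]) (hQ : value Q = 0) (k' : ℕ) (R : ℤ[X][X]) (hR : IsComp k' Q R) :
    ∀ (k : ℕ) (P : ℤ[X][X]), P ≠ 0 → Hom k P → value P = 0 → value R = 0 := by
  intro k
  induction k using Nat.strong_induction_on with
  | _ k ih =>
    intro P hP hom hv
    obtain ⟨N, hN⟩ : ∃ N : ℕ, N = max k (ws Q).natDegree := ⟨_, rfl⟩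
    have hPN : Wt N P := fun i j hij => hom i j (by omega)
    have hQN : Wt N Q := (wt_iff _ _).2 (by omega)
    obtain ⟨κ, c, hκ, hc, h1⟩ := wcore N
    obtain ⟨H₁, a1, a2⟩ := ht_exists P
    obtain ⟨H₂, b1, b2⟩ := ht_exists Q
    have hH : 1 ≤ H₁ + H₂ := by linarith
    have hpos : 0 < c * (H₁ + H₂) ^ (-κ) := by
      have : 0 < (H₁ + H₂) ^ (-κ) := Real.rpow_pos_of_pos (by linarith) _
      positivity
    have hP1 : Ht (H₁ + H₂) P := fun i j => (a2 i j).trans (by linarith)
    have hQ1 : Ht (H₁ + H₂) Q := fun i j => (b2 i j).trans (by linarith)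
    have hPs : |value P| < c * (H₁ + H₂) ^ (-κ) := by rwa [hv, abs_zero]
    have hQs : |value Q| < c * (H₁ + H₂) ^ (-κ) := by rwa [hQ, abs_zero]
    obtain ⟨f, F, -, -, hF3, hF4, hF5⟩ := (h1 _ hH).2 ⟨k, P, hP, by omega, hom, hP1, hPs⟩
    have hPP : IsComp k P P := by
      intro i j
      split_ifs with h
      · rfl
      · exact hom i j h
    obtain ⟨G, hG⟩ := hF5 P hPN hP1 hPs k P hPP
    obtain ⟨S, hS⟩ := hF5 Q hQN hQ1 hQs k' R hR
    have h2 : value F * value G = 0 := by rw [← value_mul, ← hG, hv]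
    rcases mul_eq_zero.1 h2 with h3 | h3
    · rw [hS, value_mul, h3, zero_mul]
    · have hFG : F * G ≠ 0 := hG ▸ hP
      have hF0 : F ≠ 0 := left_ne_zero_of_mul hFG
      have hG0 : G ≠ 0 := right_ne_zero_of_mul hFG
      obtain ⟨g, hg⟩ := hom_of_dvd k G F (by rwa [mul_comm]) (by rw [mul_comm, ← hG]; exact hom)
      have e1 := hom_deg k P hP hom
      rw [hG, map_mul, natDegree_mul (ws_ne F hF0) (ws_ne G hG0), hom_deg g G hG0 hg] at e1
      have hF6 : ¬ Wt 3 F := by
        intro h4
        apply hF3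
        intro i j hij
        exact h4 i j (by omega)
      rw [wt_iff] at hF6
      exact ih g (by omega) G hG0 hg h3

end Pool.Agent.H267.QZ
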